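import Pool.Agent.H82.Ham.Exact

/-! Asymptotically exact values along three families of ratios. -/

namespace H82Ham

open Finset Filter Topology

theorem tendsto_of {F : ℕ → ℝ} {μ : ℝ} (hup : ∀ n, 1 ≤ n → F n ≤ μ)
    (hlow : ∀ ε > 0, ∃ n0 : ℕ, ∀ n, n0 ≤ n → μ - ε ≤ F n) : Tendsto F atTop (𝓝 μ) := by
  rw [Metric.tendsto_atTop]
  intro ε hε
  obtain ⟨n0, hn0⟩ := hlow (ε / 2) (by linarith)
  refine ⟨max n0 1, fun n hn => ?_⟩
  have h1 := hn0 n (le_trans (le_max_left _ _) hn)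
  have h2 := hup n (le_trans (le_max_right _ _) hn)
  rw [Real.dist_eq, abs_lt]
  constructor <;> linarith

theorem div_bounds (p q n : ℕ) (hq : 0 < q) :
    (p : ℝ) / q * n - 1 ≤ ((p * n / q : ℕ) : ℝ) ∧ ((p * n / q : ℕ) : ℝ) ≤ (p : ℝ) / q * n := by
  have hq' : (0 : ℝ) < q := by exact_mod_cast hq
  constructor
  · have h := Nat.lt_div_mul_add (a := p * n) hq
    have h' : ((p : ℝ) * n) < (p * n / q : ℕ) * q + q := by exact_mod_cast h
    rw [div_mul_eq_mul_div, sub_le_iff_le_add, div_le_iff₀ hq']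
    nlinarith
  · have h : ((p * n / q : ℕ) : ℝ) ≤ ((p * n : ℕ) : ℝ) / q := Nat.cast_div_le
    rw [div_mul_eq_mul_div]
    push_cast at h
    exact h

theorem upper_one {p q : ℕ} (hq : 0 < q) {μ : ℝ} (hμ : 3 * (2 - (p : ℝ) / q) * μ = 2)
    (hpq : (p : ℝ) / q < 2) (n : ℕ) (hn : 1 ≤ n) : (f n (p * n / q) : ℝ) / 3 ^ n ≤ μ := by
  have h := f_bound_one n (p * n / q)
  have h' : 3 * ((2 * (n : ℝ) - ((p * n / q : ℕ) : ℝ)) * (f n (p * n / q) : ℝ)) ≤ 2 * n * 3 ^ n := by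
    exact_mod_cast h
  have h2 := (div_bounds p q n hq).2
  have hn' : (0 : ℝ) < n := by exact_mod_cast hn
  have hf : (0 : ℝ) ≤ f n (p * n / q) := Nat.cast_nonneg _
  rw [div_le_iff₀ (by positivity)]
  have h3 : 3 * ((2 * (n : ℝ) - (p : ℝ) / q * n) * (f n (p * n / q) : ℝ)) ≤ 2 * n * 3 ^ n := by
    refine le_trans ?_ h'
    have := mul_le_mul_of_nonneg_right (show 2 * (n : ℝ) - (p : ℝ) / q * n
      ≤ 2 * (n : ℝ) - ((p * n / q : ℕ) : ℝ) by linarith) hf
    linarith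
  have h4 : (3 * (2 - (p : ℝ) / q) * n) * (f n (p * n / q) : ℝ)
      ≤ (3 * (2 - (p : ℝ) / q) * n) * (μ * 3 ^ n) := by
    have e1 : (3 * (2 - (p : ℝ) / q) * n) * (μ * 3 ^ n) = (3 * (2 - (p : ℝ) / q) * μ) * n * 3 ^ n := by ring
    rw [e1, hμ]
    linarith
  have h5 : 0 < 3 * (2 - (p : ℝ) / q) * n := by
    have : 0 < 2 - (p : ℝ) / q := by linarith
    positivity
  exact le_of_mul_le_mul_left h4 h5

theorem upper_two {p q : ℕ} (hq : 0 < q) {μ : ℝ} (hμ : (4 - (p : ℝ) / q) * μ = 2)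
    (hpq : (p : ℝ) / q < 4) (n : ℕ) (hn : 1 ≤ n) : (f n (p * n / q) : ℝ) / 3 ^ n ≤ μ := by
  have h := f_bound_two n (p * n / q)
  have h' : (4 * (n : ℝ) - ((p * n / q : ℕ) : ℝ)) * (f n (p * n / q) : ℝ) ≤ 2 * n * 3 ^ n := by
    exact_mod_cast h
  have h2 := (div_bounds p q n hq).2
  have hn' : (0 : ℝ) < n := by exact_mod_cast hn
  have hf : (0 : ℝ) ≤ f n (p * n / q) := Nat.cast_nonneg _
  rw [div_le_iff₀ (by positivity)]
  have h3 : (4 * (n : ℝ) - (p : ℝ) / q * n) * (f n (p * n / q) : ℝ) ≤ 2 * n * 3 ^ n := by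
    refine le_trans ?_ h'
    exact mul_le_mul_of_nonneg_right (by linarith) hf
  have h4 : ((4 - (p : ℝ) / q) * n) * (f n (p * n / q) : ℝ)
      ≤ ((4 - (p : ℝ) / q) * n) * (μ * 3 ^ n) := by
    have e1 : ((4 - (p : ℝ) / q) * n) * (μ * 3 ^ n) = ((4 - (p : ℝ) / q) * μ) * n * 3 ^ n := by ring
    rw [e1, hμ]
    linarith
  have h5 : 0 < (4 - (p : ℝ) / q) * n := by
    have : 0 < 4 - (p : ℝ) / q := by linarith
    positivity
  exact le_of_mul_le_mul_left h4 h5

theorem asym {G : Type*} [AddCommGroup G] [Fintype G] [DecidableEq G] {Θ : Type*} [Fintype Θ]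
    [Nonempty Θ] (T : Finset G) (g : Θ → ZMod 3 → G) {D : ℕ} (hD0 : 0 < D)
    (hD : ∀ s ∈ T, tot T g s ≤ D) {p q : ℕ} (hq : 0 < q)
    (hδ : (D : ℝ) / (3 * Fintype.card Θ) = (p : ℝ) / q) {μ : ℝ}
    (hμ : (T.card : ℝ) / Fintype.card G = μ)
    (hup : ∀ n, 1 ≤ n → (f n (p * n / q) : ℝ) / 3 ^ n ≤ μ) :
    Tendsto (fun n : ℕ => (f n (p * n / q) : ℝ) / 3 ^ n) atTop (𝓝 μ) := by
  apply tendsto_of hup
  intro ε hε
  obtain ⟨n0, hn0⟩ := sparsified T g hD0 hD hε
  refine ⟨n0, fun n hn => ?_⟩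
  have h := hn0 n hn (p * n / q) (by rw [hδ]; exact (div_bounds p q n hq).1)
  rw [hμ] at h
  rw [le_div_iff₀ (by positivity)]
  exact h

/-! ### family A : `Z_M`, nonzero sums -/

theorem tot_A (M : ℕ) [NeZero M] (hM : 3 ≤ M) (s : ZMod M) (hs : s ∈ nz M) :
    tot (nz M) (fun (h : ZMod 3 ↪ ZMod M) v => h v) s ≤ 6 * (M * (M - 2) ^ 2) := by
  have hs0 : s ≠ 0 := by simpa [nz] using hs
  unfold tot
  rw [sum_comm]
  have : ∀ a : ZMod 3, ∑ h : ZMod 3 ↪ ZMod M, good (nz M) (fun v => h v) s a ≤ 2 * (M * (M - 2) ^ 2) := by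
    intro a
    have h1 := cnt_ne_le M hM (ne_add_one' a) hs0
    have h2 := cnt_ne_le M hM (ne_add_two' a) hs0
    have h3 : ∑ h : ZMod 3 ↪ ZMod M, good (nz M) (fun v => h v) s a
        = ∑ h : ZMod 3 ↪ ZMod M, (if s + (h (a + 1) - h a) ≠ 0 then 1 else 0)
        + ∑ h : ZMod 3 ↪ ZMod M, (if s + (h (a + 2) - h a) ≠ 0 then 1 else 0) := by
      rw [← sum_add_distrib]
      apply sum_congr rfl
      intro h _
      rw [good_eq]
      simp [nz]
    omega
  calc ∑ a : ZMod 3, ∑ h : ZMod 3 ↪ ZMod M, good (nz M) (fun v => h v) s a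
      ≤ ∑ _a : ZMod 3, 2 * (M * (M - 2) ^ 2) := sum_le_sum (fun a _ => this a)
    _ = 6 * (M * (M - 2) ^ 2) := by
        rw [sum_const, card_univ, ZMod.card, smul_eq_mul]
        ring

theorem asym_A (M : ℕ) (hM : 3 ≤ M) :
    Tendsto (fun n : ℕ => (f n (2 * (M - 2) * n / (M - 1)) : ℝ) / 3 ^ n) atTop (𝓝 (1 - 1 / M)) := by
  have : NeZero M := ⟨by omega⟩
  obtain ⟨k, rfl⟩ : ∃ k, M = k + 3 := ⟨M - 3, by omega⟩
  have e1 : k + 3 - 1 = k + 2 := by omega
  have e2 : k + 3 - 2 = k + 1 := by omega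
  have hne : Nonempty (ZMod 3 ↪ ZMod (k + 3)) := by
    rw [← Fintype.card_pos_iff, card_emb, e1, e2]
    positivity
  have hk : (0 : ℝ) ≤ k := Nat.cast_nonneg _
  rw [e1, e2]
  apply asym (nz (k + 3)) (fun (h : ZMod 3 ↪ ZMod (k + 3)) v => h v)
    (D := 6 * ((k + 3) * (k + 3 - 2) ^ 2)) (by rw [e2]; positivity) (tot_A (k + 3) hM)
    (p := 2 * (k + 1)) (q := k + 2) (by omega)
  · rw [card_emb, e1, e2]
    push_cast
    field_simp
    ring
  · rw [card_nz, ZMod.card, e1]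
    push_cast
    field_simp
    ring
  · apply upper_two (by omega)
    · push_cast
      field_simp
      ring
    · push_cast
      rw [div_lt_iff₀ (by positivity)]
      linarith

/-! ### family B : `Z_3 x Z_N` -/

theorem tot_base (s : ZMod 3) (hs : s ∈ nz 3) : tot (nz 3) (fun (_ : Unit) v => v) s ≤ 3 := by
  revert s; decide

theorem asym_B (N : ℕ) (hN : 3 ≤ N) :
    Tendsto (fun n : ℕ => (f n ((N - 2) * n / (N - 1)) : ℝ) / 3 ^ n) atTop
      (𝓝 (2 * (N - 1) / (3 * N))) := by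
  have : NeZero N := ⟨by omega⟩
  obtain ⟨k, rfl⟩ : ∃ k, N = k + 3 := ⟨N - 3, by omega⟩
  have e1 : k + 3 - 1 = k + 2 := by omega
  have e2 : k + 3 - 2 = k + 1 := by omega
  have hne : Nonempty (ZMod 3 ↪ ZMod (k + 3)) := by
    rw [← Fintype.card_pos_iff, card_emb, e1, e2]
    positivity
  have hk : (0 : ℝ) ≤ k := Nat.cast_nonneg _
  rw [e1, e2]
  apply asym (nz 3 ×ˢ nz (k + 3)) (gprod (fun (_ : Unit) v => v) (k + 3))
    (D := 3 * ((k + 3) * (k + 3 - 2) ^ 2)) (by rw [e2]; positivity) (by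
      rintro ⟨s, β⟩ hs
      obtain ⟨h1, h2⟩ := mem_product.mp hs
      have hβ : β ≠ 0 := by simpa [nz] using h2
      exact (tot_prod (nz 3) (fun (_ : Unit) v => v) (k + 3) (by omega) s hβ).trans
        (Nat.mul_le_mul_right _ (tot_base s h1)))
    (p := k + 1) (q := k + 2) (by omega)
  · rw [Fintype.card_prod, card_emb, e1, e2]
    simp only [Fintype.card_unit]
    push_cast
    field_simp
  · rw [card_product, card_nz, card_nz, Fintype.card_prod, ZMod.card, ZMod.card, e1]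
    push_cast
    field_simp
    ring
  · apply upper_one (by omega)
    · push_cast
      field_simp
      ring
    · push_cast
      rw [div_lt_iff₀ (by positivity)]
      linarith

/-! ### family C : intervals modulo `2k+1` -/

def TC (k : ℕ) : Finset (ZMod (2 * k + 1)) := (range k).image (fun j : ℕ => (j : ZMod (2 * k + 1)))

theorem mem_TC (k m : ℕ) : ((m : ℕ) : ZMod (2 * k + 1)) ∈ TC k ↔ m % (2 * k + 1) < k := by
  unfold TC
  simp only [mem_image, mem_range]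
  constructor
  · rintro ⟨j, hj, h⟩
    rw [ZMod.natCast_eq_natCast_iff'] at h
    rw [← h, Nat.mod_eq_of_lt (by omega)]
    exact hj
  · intro h
    refine ⟨m % (2 * k + 1), h, ?_⟩
    rw [ZMod.natCast_mod]

theorem card_TC (k : ℕ) : (TC k).card = k := by
  unfold TC
  rw [card_image_of_injOn, card_range]
  intro i hi j hj h
  have hi' := mem_range.mp hi
  have hj' := mem_range.mp hj
  have h' : (i : ZMod (2 * k + 1)) = j := h
  rw [ZMod.natCast_eq_natCast_iff', Nat.mod_eq_of_lt (by omega), Nat.mod_eq_of_lt (by omega)] at h'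
  exact h'

def gC (k : ℕ) (t : Fin k) (v : ZMod 3) : ZMod (2 * k + 1) :=
  if v = 0 then 0 else if v = 1 then (((t : ℕ) + 1 : ℕ) : ZMod (2 * k + 1)) else ((k + 1 : ℕ) : ZMod (2 * k + 1))

theorem tot_C (k : ℕ) (s : ZMod (2 * k + 1)) (hs : s ∈ TC k) :
    tot (TC k) (gC k) s ≤ 2 * (k - 1) := by
  obtain ⟨σ, hσ, rfl⟩ : ∃ σ < k, (σ : ZMod (2 * k + 1)) = s := by
    unfold TC at hs
    simp only [mem_image, mem_range] at hs
    obtain ⟨j, hj, h⟩ := hs
    exact ⟨j, hj, h⟩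
  have hz : ((2 * k + 1 : ℕ) : ZMod (2 * k + 1)) = 0 := ZMod.natCast_self _
  have e01 : ((0 : ZMod 3) + 1) = 1 := by decide
  have e02 : ((0 : ZMod 3) + 2) = 2 := by decide
  have e11 : ((1 : ZMod 3) + 1) = 2 := by decide
  have e12 : ((1 : ZMod 3) + 2) = 0 := by decide
  have e21 : ((2 : ZMod 3) + 1) = 0 := by decide
  have e22 : ((2 : ZMod 3) + 2) = 1 := by decide
  have n10 : (1 : ZMod 3) ≠ 0 := by decide
  have n20 : (2 : ZMod 3) ≠ 0 := by decide
  have n21 : (2 : ZMod 3) ≠ 1 := by decide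
  have key : ∀ t : Fin k, ∑ a : ZMod 3, good (TC k) (gC k t) (σ : ZMod (2 * k + 1)) a
      + ((if (t : ℕ) = k - 1 - σ then 1 else 0) + (if (t : ℕ) = σ then 1 else 0)) ≤ 2 := by
    intro t
    have ht := t.2
    rw [sum_zmod3 _ 0, good_eq, good_eq, good_eq]
    simp only [e01, e02, e11, e12, e21, e22]
    have g0 : gC k t 0 = 0 := by simp [gC]
    have g1 : gC k t 1 = (((t : ℕ) + 1 : ℕ) : ZMod (2 * k + 1)) := by simp [gC]
    have g2 : gC k t 2 = ((k + 1 : ℕ) : ZMod (2 * k + 1)) := by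
      unfold gC
      rw [if_neg n20, if_neg n21]
    have a01 : (σ : ZMod (2 * k + 1)) + (gC k t 1 - gC k t 0) = ((σ + t + 1 : ℕ) : ZMod (2 * k + 1)) := by
      rw [g0, g1]; push_cast; ring
    have a02 : (σ : ZMod (2 * k + 1)) + (gC k t 2 - gC k t 0) = ((σ + k + 1 : ℕ) : ZMod (2 * k + 1)) := by
      rw [g0, g2]; push_cast; ring
    have a12 : (σ : ZMod (2 * k + 1)) + (gC k t 2 - gC k t 1) = ((σ + (k - t) : ℕ) : ZMod (2 * k + 1)) := by
      rw [g1, g2]
      have : ((k - (t : ℕ) : ℕ) : ZMod (2 * k + 1)) = (k : ZMod (2 * k + 1)) - (t : ℕ) := by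
        rw [Nat.cast_sub ht.le]
      rw [Nat.cast_add σ, this]; push_cast; ring
    have a10 : (σ : ZMod (2 * k + 1)) + (gC k t 0 - gC k t 1) = ((σ + (2 * k - t) : ℕ) : ZMod (2 * k + 1)) := by
      rw [g1, g0]
      have : ((2 * k - (t : ℕ) : ℕ) : ZMod (2 * k + 1)) = ((2 * k + 1 : ℕ) : ZMod (2 * k + 1)) - ((t : ℕ) + 1 : ℕ) := by
        rw [← Nat.cast_sub (by omega)]
        congr 1
        omega
      rw [Nat.cast_add σ, this, hz]
    have a20 : (σ : ZMod (2 * k + 1)) + (gC k t 0 - gC k t 2) = ((σ + k : ℕ) : ZMod (2 * k + 1)) := by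
      rw [g2, g0]
      have : (k : ZMod (2 * k + 1)) = ((2 * k + 1 : ℕ) : ZMod (2 * k + 1)) - ((k + 1 : ℕ) : ZMod (2 * k + 1)) := by
        rw [← Nat.cast_sub (by omega)]
        congr 1
        omega
      rw [Nat.cast_add σ, this, hz]
    have a21 : (σ : ZMod (2 * k + 1)) + (gC k t 1 - gC k t 2) = ((σ + t + k + 1 : ℕ) : ZMod (2 * k + 1)) := by
      rw [g1, g2]
      have h0 : ((2 * k + 1 : ℕ) : ZMod (2 * k + 1)) = 0 := hz
      have : ((σ + t + k + 1 : ℕ) : ZMod (2 * k + 1)) = (σ : ZMod (2 * k + 1)) + (t : ℕ) + ((2 * k + 1 : ℕ) : ZMod (2 * k + 1)) - k := by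
        push_cast; ring
      rw [this, h0]
      push_cast
      ring
    rw [a01, a02, a12, a10, a20, a21]
    simp only [mem_TC]
    have b02 : ¬ ((σ + k + 1) % (2 * k + 1) < k) := by
      rw [Nat.mod_eq_of_lt (by omega)]; omega
    have b20 : ¬ ((σ + k) % (2 * k + 1) < k) := by
      rw [Nat.mod_eq_of_lt (by omega)]; omega
    have b01 : (σ + t + 1) % (2 * k + 1) = σ + t + 1 := Nat.mod_eq_of_lt (by omega)
    have b12 : (σ + (k - t)) % (2 * k + 1) = σ + (k - t) := Nat.mod_eq_of_lt (by omega)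
    rw [if_neg b02, if_neg b20, b01, b12]
    have b10 : (σ + (2 * k - t)) % (2 * k + 1) < k ↔ (t : ℕ) + 1 ≤ σ := by
      by_cases h : (t : ℕ) + 1 ≤ σ
      · rw [Nat.mod_eq_sub_mod (by omega), Nat.mod_eq_of_lt (by omega)]
        constructor
        · intro _; exact h
        · intro _; omega
      · rw [Nat.mod_eq_of_lt (by omega)]
        constructor
        · intro h'; omega
        · intro h'; omega
    have b21 : (σ + t + k + 1) % (2 * k + 1) < k ↔ k ≤ σ + t := by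
      by_cases h : k ≤ σ + t
      · rw [Nat.mod_eq_sub_mod (by omega), Nat.mod_eq_of_lt (by omega)]
        constructor
        · intro _; exact h
        · intro _; omega
      · rw [Nat.mod_eq_of_lt (by omega)]
        constructor
        · intro h'; omega
        · intro h'; omega
    simp only [b10, b21]
    split_ifs <;> omega
  have hsum : ∑ t : Fin k, (∑ a : ZMod 3, good (TC k) (gC k t) (σ : ZMod (2 * k + 1)) a
      + ((if (t : ℕ) = k - 1 - σ then 1 else 0) + (if (t : ℕ) = σ then 1 else 0))) ≤ ∑ _t : Fin k, 2 :=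
    sum_le_sum (fun t _ => key t)
  rw [sum_add_distrib, sum_add_distrib, sum_const, card_univ, Fintype.card_fin, smul_eq_mul] at hsum
  have h1 : ∑ t : Fin k, (if (t : ℕ) = k - 1 - σ then 1 else 0) = 1 := by
    rw [sum_eq_single (⟨k - 1 - σ, by omega⟩ : Fin k)]
    · simp
    · intro t _ ht
      rw [if_neg]
      intro h
      exact ht (Fin.ext h)
    · intro h; exact absurd (mem_univ _) h
  have h2 : ∑ t : Fin k, (if (t : ℕ) = σ then 1 else 0) = 1 := by
    rw [sum_eq_single (⟨σ, hσ⟩ : Fin k)]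
    · simp
    · intro t _ ht
      rw [if_neg]
      intro h
      exact ht (Fin.ext h)
    · intro h; exact absurd (mem_univ _) h
  rw [h1, h2] at hsum
  unfold tot
  omega

theorem asym_C (k : ℕ) (hk : 2 ≤ k) :
    Tendsto (fun n : ℕ => (f n (2 * (k - 1) * n / (3 * k)) : ℝ) / 3 ^ n) atTop
      (𝓝 (k / (2 * k + 1))) := by
  obtain ⟨j, rfl⟩ : ∃ j, k = j + 2 := ⟨k - 2, by omega⟩
  have e1 : j + 2 - 1 = j + 1 := by omega
  have hj : (0 : ℝ) ≤ j := Nat.cast_nonneg _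
  rw [e1]
  have : Nonempty (Fin (j + 2)) := ⟨0⟩
  apply asym (TC (j + 2)) (gC (j + 2)) (D := 2 * (j + 2 - 1)) (by omega) (tot_C (j + 2))
    (p := 2 * (j + 1)) (q := 3 * (j + 2)) (by omega)
  · rw [Fintype.card_fin, e1]
    push_cast
    ring
  · rw [card_TC, ZMod.card]
    push_cast
    ring
  · apply upper_one (by omega)
    · push_cast
      field_simp
      ring
    · push_cast
      rw [div_lt_iff₀ (by positivity)]
      linarith

/-! ### the ratio `2/3` -/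

theorem asym_half : Tendsto (fun n : ℕ => (f n (2 * n / 3) : ℝ) / 3 ^ n) atTop (𝓝 (1 / 2)) := by
  apply asym ({0} : Finset (ZMod 2)) (fun (_ : Unit) (v : ZMod 3) => if v = 2 then 1 else 0)
    (D := 2) (by norm_num) (by decide) (p := 2) (q := 3) (by norm_num)
  · simp
  · simp [ZMod.card]
  · apply upper_one (by norm_num)
    · norm_num
    · norm_num

end H82Ham
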