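import Mathlib

/-! Sets of bounded induced degree in the Hamming graph `H(n,3)`: definitions and the double counting bounds. -/

namespace H82Ham

open Finset

/-- vectors over `Z_3` -/
abbrev V (n : ℕ) := Fin n → ZMod 3

/-- `U` has induced degree at most `d` in the Hamming graph `H(n,3)`. -/
def IndDeg {n : ℕ} (U : Finset (V n)) (d : ℕ) : Prop :=
  ∀ x ∈ U, (U.filter (fun y => hammingDist x y = 1)).card ≤ d

open Classical in
/-- the largest size of a set of induced degree at most `d`. -/
noncomputable def f (n d : ℕ) : ℕ :=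
  ((univ : Finset (Finset (V n))).filter (fun U => IndDeg U d)).sup Finset.card

theorem le_f {n d : ℕ} {U : Finset (V n)} (h : IndDeg U d) : U.card ≤ f n d := by
  classical
  unfold f
  exact Finset.le_sup (f := Finset.card) (by simp [h])

theorem f_le {n d B : ℕ} (h : ∀ U : Finset (V n), IndDeg U d → U.card ≤ B) : f n d ≤ B := by
  classical
  unfold f
  apply Finset.sup_le
  intro U hU
  exact h U (by simpa using hU)

theorem exists_f (n d : ℕ) : ∃ U : Finset (V n), IndDeg U d ∧ U.card = f n d := by
  classical
  have hne : ((univ : Finset (Finset (V n))).filter (fun U => IndDeg U d)).Nonempty := by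
    exact ⟨∅, Finset.mem_filter.mpr ⟨mem_univ _, fun x hx => absurd hx (Finset.notMem_empty x)⟩⟩
  obtain ⟨U, hU, h⟩ := Finset.exists_mem_eq_sup _ hne Finset.card
  exact ⟨U, by simpa using hU, h.symm⟩

theorem card_V (n : ℕ) : Fintype.card (V n) = 3 ^ n := by
  simp [V, ZMod.card]

/-- neighbours are single coordinate changes -/
theorem degree_eq {n : ℕ} (U : Finset (V n)) (x : V n) :
    (U.filter (fun y => hammingDist x y = 1)).card =
      ((univ : Finset (Fin n × ZMod 3)).filter
        (fun p => p.2 ≠ x p.1 ∧ Function.update x p.1 p.2 ∈ U)).card := by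
  symm
  apply Finset.card_bij (fun p _ => Function.update x p.1 p.2)
  · intro p hp
    simp only [mem_filter, mem_univ, true_and] at hp ⊢
    refine ⟨hp.2, ?_⟩
    unfold hammingDist
    rw [Finset.card_eq_one]
    refine ⟨p.1, ?_⟩
    ext j
    simp only [mem_filter, mem_univ, true_and, mem_singleton]
    constructor
    · intro h
      by_contra hj
      exact h (by rw [Function.update_of_ne hj])
    · rintro rfl
      rw [Function.update_self]
      exact fun h => hp.1 h.symm
  · intro p hp q hq h
    simp only [mem_filter, mem_univ, true_and] at hp hq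
    have h1 : p.1 = q.1 := by
      by_contra hne
      have := congrFun h p.1
      rw [Function.update_self, Function.update_of_ne hne] at this
      exact hp.1 this
    have h2 : p.2 = q.2 := by
      have := congrFun h p.1
      rw [Function.update_self, h1, Function.update_self] at this
      exact this
    exact Prod.ext h1 h2
  · intro y hy
    simp only [mem_filter] at hy
    obtain ⟨hyU, hd⟩ := hy
    unfold hammingDist at hd
    rw [Finset.card_eq_one] at hd
    obtain ⟨i, hi⟩ := hd
    have hne : x i ≠ y i := by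
      have : i ∈ (univ : Finset (Fin n)).filter (fun i => x i ≠ y i) := by rw [hi]; simp
      simpa using this
    have heq : ∀ j, j ≠ i → x j = y j := by
      intro j hj
      by_contra h
      have : j ∈ (univ : Finset (Fin n)).filter (fun i => x i ≠ y i) := by simpa using h
      rw [hi] at this
      exact hj (by simpa using this)
    have hy' : Function.update x i (y i) = y := by
      ext j
      by_cases hj : j = i
      · subst hj; rw [Function.update_self]
      · rw [Function.update_of_ne hj, heq j hj]
    refine ⟨(i, y i), ?_, hy'⟩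
    simp only [mem_filter, mem_univ, true_and]
    exact ⟨fun h => hne h.symm, by rw [hy']; exact hyU⟩

/-! ### line sums -/

variable {n : ℕ}

/-- shift by one in the direction `i`. -/
def sh (i : Fin n) (x : V n) : V n := x + Pi.single i 1

theorem sum_sh {M : Type*} [AddCommMonoid M] (i : Fin n) (F : V n → M) :
    ∑ x, F (sh i x) = ∑ x, F x :=
  Fintype.sum_equiv (Equiv.addRight (Pi.single i (1 : ZMod 3))) _ _ (fun _ => rfl)

theorem sh_self (i : Fin n) (x : V n) : sh i x i = x i + 1 := by simp [sh]

theorem sh_ne {i j : Fin n} (h : j ≠ i) (x : V n) : sh i x j = x j := by simp [sh, h]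

theorem update_sh (i : Fin n) (x : V n) (v : ZMod 3) :
    Function.update (sh i x) i v = Function.update x i v := by
  ext j
  by_cases h : j = i
  · subst h; simp
  · rw [Function.update_of_ne h, Function.update_of_ne h, sh_ne h]

theorem sh_eq_update (i : Fin n) (x : V n) : sh i x = Function.update x i (x i + 1) := by
  ext j
  by_cases h : j = i
  · subst h; simp [sh_self]
  · rw [Function.update_of_ne h, sh_ne h]

/-- indicator -/
def ind (U : Finset (V n)) (x : V n) : ℤ := if x ∈ U then 1 else 0

/-- line sum -/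
def ls (U : Finset (V n)) (i : Fin n) (x : V n) : ℤ := ∑ v : ZMod 3, ind U (Function.update x i v)

theorem ls_sh (U : Finset (V n)) (i : Fin n) (x : V n) : ls U i (sh i x) = ls U i x := by
  unfold ls
  simp only [update_sh]

theorem sum_zmod3 {M : Type*} [AddCommMonoid M] (F : ZMod 3 → M) (a : ZMod 3) :
    ∑ v, F v = F a + F (a + 1) + F (a + 2) := by
  have h : ∑ v, F v = ∑ v, F (a + v) := (Fintype.sum_equiv (Equiv.addLeft a) _ _ (fun _ => rfl)).symm
  rw [h]
  have : (univ : Finset (ZMod 3)) = {0, 1, 2} := by decide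
  rw [this, sum_insert (by decide), sum_insert (by decide), sum_singleton, add_zero, add_assoc]

theorem ls_eq (U : Finset (V n)) (i : Fin n) (x : V n) :
    ls U i x = ind U x + ind U (sh i x) + ind U (sh i (sh i x)) := by
  unfold ls
  rw [sum_zmod3 _ (x i), Function.update_eq_self, sh_eq_update i x, sh_eq_update i _]
  congr 2
  rw [Function.update_self, Function.update_idem]
  congr 1
  ring

theorem sum_ls (U : Finset (V n)) (i : Fin n) : ∑ x, ls U i x = 3 * U.card := by
  have h : ∀ x, ls U i x = ind U x + ind U (sh i x) + ind U (sh i (sh i x)) := ls_eq U i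
  simp only [h, sum_add_distrib]
  rw [sum_sh i (fun x => ind U (sh i x)), sum_sh i (fun x => ind U x)]
  have : ∑ x, ind U x = (U.card : ℤ) := by
    unfold ind
    rw [sum_ite_mem, univ_inter, sum_const, nsmul_eq_mul, mul_one]
  rw [this]
  ring

theorem three_sum_ind_ls (U : Finset (V n)) (i : Fin n) :
    3 * ∑ x, ind U x * ls U i x = ∑ x, ls U i x * ls U i x := by
  have h1 : ∑ x, ind U x * ls U i x = ∑ x, ind U (sh i x) * ls U i x := by
    rw [← sum_sh i (fun x => ind U x * ls U i x)]
    apply sum_congr rfl
    intro x _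
    rw [ls_sh]
  have h2 : ∑ x, ind U x * ls U i x = ∑ x, ind U (sh i (sh i x)) * ls U i x := by
    rw [h1, ← sum_sh i (fun x => ind U (sh i x) * ls U i x)]
    apply sum_congr rfl
    intro x _
    rw [ls_sh]
  calc 3 * ∑ x, ind U x * ls U i x
      = ∑ x, ind U x * ls U i x + ∑ x, ind U (sh i x) * ls U i x
        + ∑ x, ind U (sh i (sh i x)) * ls U i x := by rw [← h1, ← h2]; ring
    _ = ∑ x, ls U i x * ls U i x := by
        rw [← sum_add_distrib, ← sum_add_distrib]
        apply sum_congr rfl
        intro x _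
        rw [← add_mul, ← add_mul, ← ls_eq]

theorem sum_deg (U : Finset (V n)) {d : ℕ} (h : IndDeg U d) :
    ∑ i : Fin n, ∑ x, ind U x * ls U i x ≤ (d + n) * U.card := by
  have key : ∀ x ∈ U, ∑ i : Fin n, ls U i x ≤ d + n := by
    intro x hx
    have h1 := h x hx
    rw [degree_eq] at h1
    have h2 : ∑ i : Fin n, ls U i x = n + ((univ : Finset (Fin n × ZMod 3)).filter
        (fun p => p.2 ≠ x p.1 ∧ Function.update x p.1 p.2 ∈ U)).card := by
      rw [card_filter, Nat.cast_sum, Fintype.sum_prod_type]
      have : (n : ℤ) = ∑ _i : Fin n, (1 : ℤ) := by simp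
      rw [this, ← sum_add_distrib]
      apply sum_congr rfl
      intro i _
      unfold ls ind
      rw [← Finset.add_sum_erase univ _ (mem_univ (x i)), Function.update_eq_self, if_pos hx]
      congr 1
      rw [← Finset.add_sum_erase univ
        (fun v => (((if v ≠ x i ∧ Function.update x i v ∈ U then 1 else 0 : ℕ) : ℕ) : ℤ)) (mem_univ (x i))]
      simp only [ne_eq, not_true_eq_false, false_and, if_false, Nat.cast_zero, zero_add]
      apply sum_congr rfl
      intro v hv
      have hv' : v ≠ x i := (mem_erase.mp hv).1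
      by_cases hu : Function.update x i v ∈ U <;> simp [hu, hv']
    rw [h2]
    have : (((univ : Finset (Fin n × ZMod 3)).filter
        (fun p => p.2 ≠ x p.1 ∧ Function.update x p.1 p.2 ∈ U)).card : ℤ) ≤ d := by exact_mod_cast h1
    linarith
  rw [sum_comm]
  have h3 : ∑ x, ∑ i : Fin n, ind U x * ls U i x = ∑ x ∈ U, ∑ i : Fin n, ls U i x := by
    rw [← sum_filter_add_sum_filter_not univ (fun x => x ∈ U)]
    have z : ∑ x with ¬ x ∈ U, ∑ i : Fin n, ind U x * ls U i x = 0 := by
      apply sum_eq_zero
      intro x hx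
      apply sum_eq_zero
      intro i _
      have : x ∉ U := by simpa using hx
      simp [ind, this]
    rw [z, add_zero, filter_mem_eq_inter, univ_inter]
    apply sum_congr rfl
    intro x hx
    apply sum_congr rfl
    intro i _
    simp [ind, hx]
  rw [h3]
  calc ∑ x ∈ U, ∑ i : Fin n, ls U i x ≤ ∑ _x ∈ U, ((d : ℤ) + n) := sum_le_sum key
    _ = (d + n) * U.card := by rw [sum_const, nsmul_eq_mul]; ring

/-- general form: if `(L-a)(L-b) >= 0` for all integers. -/
theorem bound_gen (U : Finset (V n)) {d : ℕ} (h : IndDeg U d) (p q : ℤ)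
    (hpq : ∀ L : ℤ, p * L - q ≤ L * L) :
    n * (3 * p * U.card - q * 3 ^ n) ≤ 3 * ((d + n) * U.card) := by
  have h1 := sum_deg U h
  have h2 : ∀ i : Fin n, 3 * p * U.card - q * 3 ^ n ≤ 3 * ∑ x, ind U x * ls U i x := by
    intro i
    rw [three_sum_ind_ls]
    calc 3 * p * (U.card : ℤ) - q * 3 ^ n = ∑ x : V n, (p * ls U i x - q) := by
          rw [sum_sub_distrib, ← mul_sum, sum_ls, sum_const, card_univ, card_V, nsmul_eq_mul]
          push_cast
          ring
      _ ≤ ∑ x, ls U i x * ls U i x := sum_le_sum (fun x _ => hpq _)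
  have h3 : ∑ _i : Fin n, (3 * p * (U.card : ℤ) - q * 3 ^ n) ≤ ∑ i : Fin n, 3 * ∑ x, ind U x * ls U i x :=
    sum_le_sum (fun i _ => h2 i)
  rw [sum_const, card_univ, Fintype.card_fin, nsmul_eq_mul, ← mul_sum] at h3
  linarith

/-- `(2n-d)|U| ≤ 2n 3^(n-1)` -/
theorem bound_one (U : Finset (V n)) {d : ℕ} (h : IndDeg U d) :
    3 * ((2 * n - d) * (U.card : ℤ)) ≤ 2 * n * 3 ^ n := by
  have := bound_gen U h 3 2 (fun L => by
    have : 0 ≤ (L - 1) * (L - 2) := by
      rcases le_or_gt L 1 with h | h
      · nlinarith
      · nlinarith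
    linarith)
  linarith

/-- `(4n-d)|U| ≤ 2n 3^n` -/
theorem bound_two (U : Finset (V n)) {d : ℕ} (h : IndDeg U d) :
    (4 * n - d) * (U.card : ℤ) ≤ 2 * n * 3 ^ n := by
  have := bound_gen U h 5 6 (fun L => by
    have : 0 ≤ (L - 2) * (L - 3) := by
      rcases le_or_gt L 2 with h | h
      · nlinarith
      · nlinarith
    linarith)
  linarith

theorem f_bound_one (n d : ℕ) : 3 * ((2 * n - d) * (f n d : ℤ)) ≤ 2 * n * 3 ^ n := by
  obtain ⟨U, hU, hc⟩ := exists_f n d
  rw [← hc]
  exact bound_one U hU

theorem f_bound_two (n d : ℕ) : (4 * n - d) * (f n d : ℤ) ≤ 2 * n * 3 ^ n := by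
  obtain ⟨U, hU, hc⟩ := exists_f n d
  rw [← hc]
  exact bound_two U hU

end H82Ham
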