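import Pool.Agent.H82.Ham.Families

/-! Exact values from linear constructions, and the asymptotic families. -/

namespace H82Ham

open Finset Filter Topology

/-! ### linear constructions -/

section linear

variable {G : Type*} [AddCommGroup G] [Fintype G] [DecidableEq G] [Module (ZMod 3) G]

omit [Fintype G] in
theorem good_linear (T : Finset G) (h s : G) (a : ZMod 3) :
    good T (fun v => v • h) s a = (if s + h ∈ T then 1 else 0) + (if s - h ∈ T then 1 else 0) := by
  rw [good_eq]
  have h1 : (a + 1) • h - a • h = h := by rw [← sub_smul]; simp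
  have h2 : (a + 2) • h - a • h = -h := by
    rw [← sub_smul, add_sub_cancel_left, show (2 : ZMod 3) = -1 by decide, neg_smul, one_smul]
  rw [h1, h2, sub_eq_add_neg]

theorem card_cls_exact (r m t : ℕ) (ht : t < m) : (cls (r * m) m t).card = r := by
  have hm : 0 < m := by omega
  have key : (range r).card = (cls (r * m) m t).card := by
   apply card_bij (fun k hk => (⟨k * m + t, by
    have hk' := mem_range.mp hk
    have : (k + 1) * m ≤ r * m := Nat.mul_le_mul_right m hk'
    rw [add_mul, one_mul] at this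
    omega⟩ : Fin (r * m)))
   · intro k hk
     unfold cls
     simp only [mem_filter, mem_univ, true_and]
     rw [Nat.add_comm, Nat.add_mul_mod_self_right, Nat.mod_eq_of_lt ht]
   · intro k _ k' _ h
     have h1 : k * m + t = k' * m + t := congrArg Fin.val h
     exact Nat.eq_of_mul_eq_mul_right hm (by omega)
   · intro i hi
     have h1 : (i : ℕ) % m = t := by simpa [cls] using hi
     refine ⟨(i : ℕ) / m, mem_range.mpr (Nat.div_lt_of_lt_mul (lt_of_lt_of_eq i.2 (mul_comm r m))), ?_⟩
     apply Fin.ext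
     show (i : ℕ) / m * m + t = i
     rw [mul_comm, ← h1]
     exact Nat.div_add_mod _ _
  rw [card_range] at key
  exact key.symm

theorem linear_bound {m : ℕ} (hm : 0 < m) (r : ℕ) (T : Finset G) (h : Fin m → G) {D : ℕ}
    (hD : ∀ s ∈ T, ∑ t : Fin m, ((if s + h t ∈ T then 1 else 0) + (if s - h t ∈ T then 1 else 0)) ≤ D) :
    T.card * 3 ^ (r * m) ≤ Fintype.card G * f (r * m) (r * D) := by
  set g : Fin m → ZMod 3 → G := fun t v => v • h t with hg
  set G' : Fin (r * m) → ZMod 3 → G := fun i => g ⟨(i : ℕ) % m, Nat.mod_lt _ hm⟩ with hG'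
  obtain ⟨c, hc⟩ := exists_shift G' T
  refine hc.trans (Nat.mul_le_mul_left _ (le_f ?_))
  intro x hx
  have hxT : psi G' x - c ∈ T := by unfold US at hx; simpa using hx
  rw [degree_US, hG', sum_good_eq hm]
  have h1 : ∀ t : Fin m, ∑ a : ZMod 3, cnt (cls (r * m) m t) a x * good T (g t) (psi G' x - c) a
      = r * ((if psi G' x - c + h t ∈ T then 1 else 0) + (if psi G' x - c - h t ∈ T then 1 else 0)) := by
    intro t
    have : ∀ a : ZMod 3, cnt (cls (r * m) m t) a x * good T (g t) (psi G' x - c) a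
      = cnt (cls (r * m) m t) a x *
        ((if psi G' x - c + h t ∈ T then 1 else 0) + (if psi G' x - c - h t ∈ T then 1 else 0)) := by
      intro a
      rw [hg]
      rw [good_linear]
    rw [sum_congr rfl (fun a _ => this a), ← sum_mul]
    congr 1
    have hcc := card_cls_exact r m t t.2
    refine Eq.trans ?_ hcc
    unfold cnt
    exact (card_eq_sum_card_fiberwise (fun i _ => mem_univ (x i))).symm
  rw [sum_congr rfl (fun t _ => h1 t), ← mul_sum]
  exact Nat.mul_le_mul_left _ (hD _ hxT)

end linear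

/-- `f(2r, r) = 4 * 3^(2r-2)` -/
theorem f_two (r : ℕ) (hr : 1 ≤ r) : f (2 * r) r = 4 * 3 ^ (2 * r - 2) := by
  have hpow : 3 ^ (2 * r) = 9 * 3 ^ (2 * r - 2) := by
    rw [show 2 * r = 2 + (2 * r - 2) by omega, pow_add]
    norm_num
  apply le_antisymm
  · have h := f_bound_one (2 * r) r
    have hpowz : (3 : ℤ) ^ (2 * r) = 9 * 3 ^ (2 * r - 2) := by exact_mod_cast hpow
    rw [hpowz] at h
    push_cast at h
    have hr' : (0 : ℤ) < r := by exact_mod_cast hr
    have h2 : (9 * r : ℤ) * (f (2 * r) r : ℤ) ≤ (9 * r) * (4 * 3 ^ (2 * r - 2)) := by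
      have e : (3 : ℤ) * ((2 * (2 * r) - r) * (f (2 * r) r : ℤ)) = (9 * r) * (f (2 * r) r : ℤ) := by ring
      rw [e] at h
      calc (9 * r : ℤ) * (f (2 * r) r : ℤ) ≤ _ := h
        _ = _ := by ring
    have h3 := le_of_mul_le_mul_left h2 (by positivity)
    exact_mod_cast h3
  · have h := linear_bound (G := ZMod 3 × ZMod 3) (m := 2) (by norm_num) r
      {(0, 0), (0, 1), (1, 2), (2, 2)} ![(1, 0), (0, 1)] (D := 1) (by decide)
    have hc : ({(0, 0), (0, 1), (1, 2), (2, 2)} : Finset (ZMod 3 × ZMod 3)).card = 4 := by decide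
    rw [hc, Fintype.card_prod, ZMod.card, mul_one, mul_comm r 2, hpow] at h
    omega

/-- a half system of the nonzero vectors -/
theorem exists_half (j : ℕ) : ∃ H : Finset (Fin j → ZMod 3), 2 * H.card = 3 ^ j - 1 ∧
    ∀ v : Fin j → ZMod 3, v ≠ 0 → v ∈ H ∨ -v ∈ H := by
  classical
  have e := Fintype.equivFin (Fin j → ZMod 3)
  have hne : ∀ v : Fin j → ZMod 3, v ≠ 0 → -v ≠ v := by
    intro v hv h
    apply hv
    ext i
    have h1 := congrFun h i
    simp only [Pi.neg_apply] at h1
    show v i = 0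
    generalize v i = w at h1
    revert h1; revert w; decide
  set H : Finset (Fin j → ZMod 3) := univ.filter (fun v => v ≠ 0 ∧ e v < e (-v)) with hH
  set H' : Finset (Fin j → ZMod 3) := univ.filter (fun v => v ≠ 0 ∧ e (-v) < e v) with hH'
  have hcard : H.card = H'.card := by
    apply card_bij (fun v _ => -v)
    · intro v hv
      rw [hH] at hv
      rw [hH']
      simp only [mem_filter, mem_univ, true_and] at hv ⊢
      rw [neg_neg]
      exact ⟨neg_ne_zero.mpr hv.1, hv.2⟩
    · intro v _ w _ h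
      exact neg_injective h
    · intro v hv
      rw [hH'] at hv
      simp only [mem_filter, mem_univ, true_and] at hv
      refine ⟨-v, ?_, neg_neg v⟩
      rw [hH]
      simp only [mem_filter, mem_univ, true_and]
      rw [neg_neg]
      exact ⟨neg_ne_zero.mpr hv.1, hv.2⟩
  have hunion : H ∪ H' = univ.erase 0 := by
    ext v
    rw [hH, hH']
    simp only [mem_union, mem_filter, mem_univ, true_and, mem_erase, and_true]
    constructor
    · rintro (h | h) <;> exact h.1
    · intro h
      rcases lt_or_gt_of_ne (fun h' : e v = e (-v) => hne v h (e.injective h').symm) with h' | h'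
      · exact Or.inl ⟨h, h'⟩
      · exact Or.inr ⟨h, h'⟩
  have hdisj : Disjoint H H' := by
    rw [Finset.disjoint_left]
    intro v hv hv'
    rw [hH] at hv
    rw [hH'] at hv'
    simp only [mem_filter, mem_univ, true_and] at hv hv'
    exact absurd hv.2 (not_lt.mpr hv'.2.le)
  refine ⟨H, ?_, ?_⟩
  · have h1 : (H ∪ H').card = 3 ^ j - 1 := by
      rw [hunion, card_erase_of_mem (mem_univ _), card_univ]
      simp [ZMod.card]
    rw [card_union_of_disjoint hdisj, ← hcard] at h1
    omega
  · intro v hv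
    have : v ∈ H ∪ H' := by rw [hunion]; simp [hv]
    rcases mem_union.mp this with h | h
    · exact Or.inl h
    · right
      rw [hH'] at h
      rw [hH]
      simp only [mem_filter, mem_univ, true_and] at h ⊢
      rw [neg_neg]
      exact ⟨neg_ne_zero.mpr h.1, h.2⟩

theorem two_mul_add_one_le (j : ℕ) : 2 * j + 1 ≤ 3 ^ j := by
  induction j with
  | zero => norm_num
  | succ j ih => rw [pow_succ]; omega

/-- `f(r(3^j-1)/2, r(3^j-2)) = 3^n - 3^(n-j)` -/
theorem f_simplex (r j : ℕ) (hr : 1 ≤ r) (hj : 1 ≤ j) :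
    f (r * ((3 ^ j - 1) / 2)) (r * (3 ^ j - 2))
      = 3 ^ (r * ((3 ^ j - 1) / 2)) - 3 ^ (r * ((3 ^ j - 1) / 2) - j) := by
  classical
  obtain ⟨H, hH, hcov⟩ := exists_half j
  have hm : (3 ^ j - 1) / 2 = H.card := by omega
  have h3j : 3 ^ j = 2 * H.card + 1 := by
    have : 0 < 3 ^ j := by positivity
    omega
  have hjH : j ≤ H.card := by
    have := two_mul_add_one_le j
    omega
  rw [hm]
  set m := H.card with hmdef
  have hm0 : 0 < m := by omega
  have hjn : j ≤ r * m := le_trans hjH (Nat.le_mul_of_pos_left m hr)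
  have hpow : 3 ^ (r * m) = 3 ^ j * 3 ^ (r * m - j) := by rw [← pow_add]; congr 1; omega
  have hd : 3 ^ j - 2 = 2 * m - 1 := by omega
  rw [hd]
  apply le_antisymm
  · have h := f_bound_two (r * m) (r * (2 * m - 1))
    have hr' : (0 : ℤ) < r := by exact_mod_cast hr
    have hc : ((r * (2 * m - 1) : ℕ) : ℤ) = r * (2 * m - 1) := by
      have : ((2 * m - 1 : ℕ) : ℤ) = 2 * m - 1 := by omega
      rw [Nat.cast_mul, this]
    have hz : (3 : ℤ) ^ (r * m) = (2 * m + 1) * 3 ^ (r * m - j) := by
      have : (3 : ℤ) ^ (r * m) = 3 ^ j * 3 ^ (r * m - j) := by exact_mod_cast hpow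
      rw [this]
      have : (3 : ℤ) ^ j = 2 * m + 1 := by exact_mod_cast h3j
      rw [this]
    rw [hc, hz] at h
    push_cast at h
    have hmz : (0 : ℤ) < m := by exact_mod_cast hm0
    have h2 : (r * (2 * m + 1) : ℤ) * (f (r * m) (r * (2 * m - 1)) : ℤ)
        ≤ (r * (2 * m + 1)) * (2 * m * 3 ^ (r * m - j)) := by
      calc (r * (2 * m + 1) : ℤ) * (f (r * m) (r * (2 * m - 1)) : ℤ)
          = (4 * (r * m) - r * (2 * m - 1)) * (f (r * m) (r * (2 * m - 1)) : ℤ) := by ring
        _ ≤ _ := h
        _ = _ := by ring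
    have h3 := le_of_mul_le_mul_left h2 (mul_pos hr' (by linarith))
    have h4 : f (r * m) (r * (2 * m - 1)) ≤ 2 * m * 3 ^ (r * m - j) := by exact_mod_cast h3
    rw [hpow, h3j]
    have : (2 * m + 1) * 3 ^ (r * m - j) - 3 ^ (r * m - j) = 2 * m * 3 ^ (r * m - j) := by
      rw [add_mul, one_mul]; exact Nat.add_sub_cancel _ _
    omega
  · have hT : ((univ : Finset (Fin j → ZMod 3)).erase 0).card = 2 * m := by
      rw [card_erase_of_mem (mem_univ _), card_univ, card_V j]
      omega
    have e := H.equivFin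
    have h := linear_bound (G := Fin j → ZMod 3) (m := m) hm0 r (univ.erase 0)
      (fun t => ((e.symm t : H) : Fin j → ZMod 3)) (D := 2 * m - 1) (by
        intro s hs
        have hs0 : s ≠ 0 := (mem_erase.mp hs).1
        have hle : ∀ v : Fin j → ZMod 3, ((if s + v ∈ (univ : Finset (Fin j → ZMod 3)).erase 0 then 1 else 0)
          + (if s - v ∈ (univ : Finset (Fin j → ZMod 3)).erase 0 then 1 else 0)) ≤ 2 := by
          intro v; split_ifs <;> omega
        obtain ⟨v, hv, hv'⟩ : ∃ v ∈ H, s + v = 0 ∨ s - v = 0 := by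
          rcases hcov s hs0 with h | h
          · exact ⟨s, h, Or.inr (sub_self s)⟩
          · exact ⟨-s, h, Or.inl (add_neg_cancel s)⟩
        rw [← add_sum_erase univ _ (mem_univ (e ⟨v, hv⟩))]
        have h1 : (if s + ((e.symm (e ⟨v, hv⟩) : H) : Fin j → ZMod 3) ∈ (univ : Finset (Fin j → ZMod 3)).erase 0 then 1 else 0)
          + (if s - ((e.symm (e ⟨v, hv⟩) : H) : Fin j → ZMod 3) ∈ (univ : Finset (Fin j → ZMod 3)).erase 0 then 1 else 0) ≤ 1 := by
          rw [Equiv.symm_apply_apply]
          rcases hv' with h | h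
          · rw [if_neg (by rw [h]; simp)]
            split_ifs <;> omega
          · rw [if_neg (c := s - v ∈ _) (by rw [h]; simp)]
            split_ifs <;> omega
        have h2 : ∑ t ∈ univ.erase (e ⟨v, hv⟩), ((if s + ((e.symm t : H) : Fin j → ZMod 3) ∈ (univ : Finset (Fin j → ZMod 3)).erase 0 then 1 else 0)
          + (if s - ((e.symm t : H) : Fin j → ZMod 3) ∈ (univ : Finset (Fin j → ZMod 3)).erase 0 then 1 else 0)) ≤ (m - 1) * 2 := by
          have := sum_le_card_nsmul (univ.erase (e ⟨v, hv⟩)) (fun t => ((if s + ((e.symm t : H) : Fin j → ZMod 3) ∈ (univ : Finset (Fin j → ZMod 3)).erase 0 then 1 else 0)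
          + (if s - ((e.symm t : H) : Fin j → ZMod 3) ∈ (univ : Finset (Fin j → ZMod 3)).erase 0 then 1 else 0))) 2 (fun t _ => hle _)
          rw [card_erase_of_mem (mem_univ _), card_univ, Fintype.card_fin, smul_eq_mul] at this
          exact this
        omega)
    rw [hT] at h
    have hG : Fintype.card (Fin j → ZMod 3) = 2 * m + 1 := by rw [card_V j]; omega
    rw [hG, hpow, h3j] at h
    have h5 : (2 * m + 1) * (2 * m * 3 ^ (r * m - j)) ≤ (2 * m + 1) * f (r * m) (r * (2 * m - 1)) := by
      calc (2 * m + 1) * (2 * m * 3 ^ (r * m - j)) = 2 * m * ((2 * m + 1) * 3 ^ (r * m - j)) := by ring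
        _ ≤ _ := h
    have h6 := Nat.le_of_mul_le_mul_left h5 (Nat.succ_pos _)
    rw [hpow, h3j]
    have : (2 * m + 1) * 3 ^ (r * m - j) - 3 ^ (r * m - j) = 2 * m * 3 ^ (r * m - j) := by
      rw [add_mul, one_mul]; exact Nat.add_sub_cancel _ _
    omega

end H82Ham
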