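import Pool.Agent.H82.Ham.Lower

/-! Sparsification and the explicit families. -/

namespace H82Ham

open Finset

section general

variable {G : Type*} [AddCommGroup G] [Fintype G] [DecidableEq G]

omit [Fintype G] in
theorem good_eq (T : Finset G) (h : ZMod 3 → G) (s : G) (a : ZMod 3) :
    good T h s a = (if s + (h (a + 1) - h a) ∈ T then 1 else 0)
      + (if s + (h (a + 2) - h a) ∈ T then 1 else 0) := by
  unfold good
  rw [card_filter, sum_zmod3 _ a]
  have h1 : a + 1 ≠ a := by revert a; decide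
  have h2 : a + 2 ≠ a := by revert a; decide
  simp [h1, h2]

/-- the total degree weight of a state. -/
def tot {Θ : Type*} [Fintype Θ] (T : Finset G) (g : Θ → ZMod 3 → G) (s : G) : ℕ :=
  ∑ t : Θ, ∑ a : ZMod 3, good T (g t) s a

theorem lower_bound' {Θ : Type*} [Fintype Θ] [Nonempty Θ] (T : Finset G) (g : Θ → ZMod 3 → G) {D : ℕ}
    (hD : ∀ s ∈ T, tot T g s ≤ D) {δ : ℝ}
    (hδ : (D : ℝ) / (3 * Fintype.card Θ) < δ) {ε : ℝ} (hε : 0 < ε) :
    ∃ n0 : ℕ, ∀ n : ℕ, n0 ≤ n → ∀ d : ℕ, δ * n - 1 ≤ d →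
      ((T.card : ℝ) / Fintype.card G - ε) * 3 ^ n ≤ f n d := by
  have e := Fintype.equivFin Θ
  apply lower_bound (m := Fintype.card Θ) Fintype.card_pos T (fun t => g (e.symm t)) (D := D) _ hδ hε
  intro s hs
  have := hD s hs
  unfold tot at this
  rw [← Fintype.sum_equiv e (fun t => ∑ a : ZMod 3, good T (g t) s a)
    (fun t => ∑ a : ZMod 3, good T (g (e.symm t)) s a) (fun t => by simp)]
  exact this

end general

/-! ### injective letter tables modulo `K` -/

theorem card_emb (K : ℕ) [NeZero K] : Fintype.card (ZMod 3 ↪ ZMod K) = K * (K - 1) * (K - 2) := by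
  rw [Fintype.card_embedding_eq, ZMod.card, ZMod.card]
  simp only [Nat.descFactorial]
  rcases K with _ | _ | K
  · simp
  · simp
  · simp only [Nat.add_sub_cancel, Nat.sub_zero]
    have h2 : K + 1 + 1 - 2 = K := by omega
    rw [h2]
    ring

theorem cnt_eq_ge (K : ℕ) [NeZero K] {a b : ZMod 3} (hab : a ≠ b) {e : ZMod K} (he : e ≠ 0) :
    K * (K - 2) ≤ ((univ : Finset (ZMod 3 ↪ ZMod K)).filter (fun h => h b - h a = e)).card := by
  classical
  set S : Finset (ZMod K × ZMod K) := univ.filter (fun p => p.2 ≠ p.1 ∧ p.2 ≠ p.1 + e) with hS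
  have hc : S.card = K * (K - 2) := by
    rw [hS, card_filter, Fintype.sum_prod_type]
    have : ∀ x : ZMod K, ∑ z : ZMod K, (if z ≠ x ∧ z ≠ x + e then 1 else 0) = K - 2 := by
      intro x
      rw [← card_filter]
      have hset : (univ : Finset (ZMod K)).filter (fun z => z ≠ x ∧ z ≠ x + e) = univ \ {x, x + e} := by
        ext z; simp
      rw [hset, card_sdiff_of_subset (subset_univ _), card_univ, ZMod.card, card_pair]
      intro h
      apply he
      have : x + 0 = x + e := by rw [add_zero]; exact h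
      exact (add_left_cancel this).symm
    rw [sum_congr rfl (fun x _ => this x), sum_const, card_univ, ZMod.card, smul_eq_mul]
  rw [← hc]
  obtain ⟨c, hca, hcb, hcov⟩ : ∃ c : ZMod 3, c ≠ a ∧ c ≠ b ∧ ∀ v, v = a ∨ v = b ∨ v = c := by
    revert a b; decide
  apply card_le_card_of_surjOn (fun h : ZMod 3 ↪ ZMod K => (h a, h c))
  rintro ⟨x, z⟩ hxz
  rw [hS] at hxz
  simp only [coe_filter, mem_univ, true_and, Set.mem_ofPred_eq] at hxz
  obtain ⟨h1, h2⟩ := hxz
  have hx : x ≠ x + e := by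
    intro h
    apply he
    have : x + 0 = x + e := by rw [add_zero]; exact h
    exact (add_left_cancel this).symm
  obtain ⟨F, Fa, Fb, Fc⟩ : ∃ F : ZMod 3 → ZMod K, F a = x ∧ F b = x + e ∧ F c = z :=
    ⟨fun v => if v = a then x else if v = b then x + e else z, by simp, by simp [hab.symm],
      by simp [hca, hcb]⟩
  have hinj : Function.Injective F := by
    intro v w hvw
    rcases hcov v with h | h | h <;> rcases hcov w with h' | h' | h' <;> rw [h, h'] at hvw ⊢ <;>
      exfalso <;> simp only [Fa, Fb, Fc] at hvw <;>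
      first
        | exact hx hvw
        | exact hx hvw.symm
        | exact h1 hvw
        | exact h1 hvw.symm
        | exact h2 hvw
        | exact h2 hvw.symm
  refine ⟨⟨F, hinj⟩, ?_, ?_⟩
  · have : F b - F a = e := by rw [Fa, Fb]; ring
    simpa using this
  · show (F a, F c) = (x, z)
    rw [Fa, Fc]

theorem ne_add_one' (a : ZMod 3) : a ≠ a + 1 := by revert a; decide

theorem ne_add_two' (a : ZMod 3) : a ≠ a + 2 := by revert a; decide

theorem cnt_ne_le (K : ℕ) [NeZero K] (hK : 3 ≤ K) {a b : ZMod 3} (hab : a ≠ b) {β : ZMod K} (hβ : β ≠ 0) :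
    ∑ h : ZMod 3 ↪ ZMod K, (if β + (h b - h a) ≠ 0 then 1 else 0) ≤ K * (K - 2) ^ 2 := by
  have h1 := cnt_eq_ge K hab (e := -β) (neg_ne_zero.mpr hβ)
  have h2 : ∑ h : ZMod 3 ↪ ZMod K, (if β + (h b - h a) ≠ 0 then 1 else 0)
      + ((univ : Finset (ZMod 3 ↪ ZMod K)).filter (fun h => h b - h a = -β)).card
      = K * (K - 1) * (K - 2) := by
    rw [card_filter, ← sum_add_distrib, ← card_emb K, ← card_univ, card_eq_sum_ones]
    apply sum_congr rfl
    intro h _
    by_cases hc : h b - h a = -β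
    · rw [hc]; simp
    · have : β + (h b - h a) ≠ 0 := by
        intro h0
        exact hc (eq_neg_of_add_eq_zero_right h0)
      simp [hc, this]
  obtain ⟨k, rfl⟩ : ∃ k, K = k + 3 := ⟨K - 3, by omega⟩
  have e1 : k + 3 - 1 = k + 2 := by omega
  have e2 : k + 3 - 2 = k + 1 := by omega
  rw [e1, e2] at h2
  rw [e2] at h1 ⊢
  nlinarith

/-! ### product with `Z_K` -/

section product

variable {G : Type*} [AddCommGroup G] [Fintype G] [DecidableEq G]

def nz (K : ℕ) [NeZero K] : Finset (ZMod K) := univ.filter (fun z => z ≠ 0)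

theorem card_nz (K : ℕ) [NeZero K] : (nz K).card = K - 1 := by
  unfold nz
  rw [filter_ne', card_erase_of_mem (mem_univ _), card_univ, ZMod.card]

def gprod {Θ : Type*} (g : Θ → ZMod 3 → G) (K : ℕ) (p : Θ × (ZMod 3 ↪ ZMod K)) (v : ZMod 3) : G × ZMod K :=
  (g p.1 v, p.2 v)

omit [Fintype G] in
theorem tot_prod {Θ : Type*} [Fintype Θ] (T : Finset G) (g : Θ → ZMod 3 → G) (K : ℕ) [NeZero K]
    (hK : 3 ≤ K) (s : G) {β : ZMod K} (hβ : β ≠ 0) :
    tot (T ×ˢ nz K) (gprod g K) (s, β) ≤ tot T g s * (K * (K - 2) ^ 2) := by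
  unfold tot
  rw [Fintype.sum_prod_type, sum_mul]
  apply sum_le_sum
  intro t _
  rw [sum_comm, sum_mul]
  apply sum_le_sum
  intro a _
  have key : ∀ b : ZMod 3, a ≠ b → ∑ h : ZMod 3 ↪ ZMod K,
      (if (s, β) + (gprod g K (t, h) b - gprod g K (t, h) a) ∈ T ×ˢ nz K then 1 else 0)
      ≤ (if s + (g t b - g t a) ∈ T then 1 else 0) * (K * (K - 2) ^ 2) := by
    intro b hab
    have hh := cnt_ne_le K hK hab hβ
    by_cases hT : s + (g t b - g t a) ∈ T
    · rw [if_pos hT, one_mul]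
      refine le_trans (le_of_eq ?_) hh
      apply sum_congr rfl
      intro h _
      have : ((s, β) + (gprod g K (t, h) b - gprod g K (t, h) a) ∈ T ×ˢ nz K)
          ↔ β + (h b - h a) ≠ 0 := by
        simp [gprod, nz, hT]
      simp only [this]
    · rw [if_neg hT, zero_mul]
      apply le_of_eq
      apply sum_eq_zero
      intro h _
      rw [if_neg]
      intro hmem
      apply hT
      simpa [gprod] using (mem_product.mp hmem).1
  have hrw : ∑ h : ZMod 3 ↪ ZMod K, good (T ×ˢ nz K) (gprod g K (t, h)) (s, β) a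
      = ∑ h : ZMod 3 ↪ ZMod K,
        (if (s, β) + (gprod g K (t, h) (a + 1) - gprod g K (t, h) a) ∈ T ×ˢ nz K then 1 else 0)
      + ∑ h : ZMod 3 ↪ ZMod K,
        (if (s, β) + (gprod g K (t, h) (a + 2) - gprod g K (t, h) a) ∈ T ×ˢ nz K then 1 else 0) := by
    rw [← sum_add_distrib]
    apply sum_congr rfl
    intro h _
    exact good_eq _ _ _ _
  rw [hrw, good_eq, add_mul]
  apply add_le_add
  · exact key _ (ne_add_one' a)
  · exact key _ (ne_add_two' a)

theorem sparsified {Θ : Type*} [Fintype Θ] [Nonempty Θ] (T : Finset G) (g : Θ → ZMod 3 → G) {D : ℕ}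
    (hD0 : 0 < D) (hD : ∀ s ∈ T, tot T g s ≤ D) {ε : ℝ} (hε : 0 < ε) :
    ∃ n0 : ℕ, ∀ n : ℕ, n0 ≤ n → ∀ d : ℕ, (D : ℝ) / (3 * Fintype.card Θ) * n - 1 ≤ d →
      ((T.card : ℝ) / Fintype.card G - ε) * 3 ^ n ≤ f n d := by
  obtain ⟨k, hk⟩ := exists_nat_gt (2 / ε)
  set K : ℕ := k + 3 with hK
  haveI : NeZero K := ⟨by omega⟩
  haveI : Nonempty (ZMod 3 ↪ ZMod K) := by
    rw [← Fintype.card_pos_iff, card_emb]
    have e1 : K - 1 = k + 2 := by omega
    have e2 : K - 2 = k + 1 := by omega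
    rw [e1, e2, hK]
    positivity
  have hcG : (0 : ℝ) < Fintype.card G := by
    have : 0 < Fintype.card G := Fintype.card_pos_iff.mpr ⟨0⟩
    exact_mod_cast this
  have hcT : (T.card : ℝ) ≤ Fintype.card G := by exact_mod_cast card_le_univ T
  have hcΘ : (0 : ℝ) < Fintype.card Θ := by exact_mod_cast Fintype.card_pos
  have hD0' : (0 : ℝ) < D := by exact_mod_cast hD0
  have hk0 : (0 : ℝ) ≤ k := Nat.cast_nonneg _
  have hKr : (K : ℝ) = k + 3 := by rw [hK]; push_cast; ring
  have hδ : ((D * (K * (K - 2) ^ 2) : ℕ) : ℝ) / (3 * Fintype.card (Θ × (ZMod 3 ↪ ZMod K)))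
      < (D : ℝ) / (3 * Fintype.card Θ) := by
    rw [Fintype.card_prod, card_emb]
    have e1 : K - 1 = k + 2 := by omega
    have e2 : K - 2 = k + 1 := by omega
    rw [e1, e2]
    push_cast
    rw [hKr, div_lt_div_iff₀ (by positivity) (by positivity)]
    have h1 : (0 : ℝ) < D * (3 * Fintype.card Θ) * ((k + 3) * (k + 1)) := by positivity
    nlinarith
  obtain ⟨n0, hn0⟩ := lower_bound' (T ×ˢ nz K) (gprod g K) (D := D * (K * (K - 2) ^ 2))
    (by
      rintro ⟨s, β⟩ hs
      obtain ⟨h1, h2⟩ := mem_product.mp hs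
      have hβ : β ≠ 0 := by simpa [nz] using h2
      exact (tot_prod T g K (by omega) s hβ).trans (Nat.mul_le_mul_right _ (hD s h1)))
    hδ (ε := ε / 2) (by linarith)
  refine ⟨n0, fun n hn d hd => le_trans ?_ (hn0 n hn d hd)⟩
  apply mul_le_mul_of_nonneg_right _ (by positivity)
  rw [card_product, card_nz, Fintype.card_prod, ZMod.card]
  have e1 : K - 1 = k + 2 := by omega
  rw [e1]
  push_cast
  rw [hKr]
  have h3 : (T.card : ℝ) * (k + 2) / (Fintype.card G * (k + 3))
      = (T.card : ℝ) / Fintype.card G - (T.card : ℝ) / Fintype.card G * (1 / (k + 3)) := by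
    field_simp
    ring
  rw [h3]
  have h4 : (T.card : ℝ) / Fintype.card G ≤ 1 := by rw [div_le_one hcG]; exact hcT
  have h5 : (1 : ℝ) / (k + 3) ≤ ε / 2 := by
    rw [div_le_iff₀ (by positivity)]
    have := hk.le
    rw [div_le_iff₀ hε] at this
    nlinarith
  have h6 : (T.card : ℝ) / Fintype.card G * (1 / (k + 3)) ≤ 1 * (ε / 2) :=
    mul_le_mul h4 h5 (by positivity) (by norm_num)
  linarith

end product

end H82Ham
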