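import Pool.Agent.H82.Ham.Basic

/-! Lower bounds from abelian groups: `U = {x : ∑ g_i(x_i) - c ∈ T}`. -/

namespace H82Ham

open Finset

variable {n : ℕ}

/-! ### second moments of letter counts -/

def wt (a v : ZMod 3) : ℤ := if v = a then 2 else -1

theorem wt_sum (a v : ZMod 3) : wt a v + wt a (v + 1) + wt a (v + 2) = 0 := by
  unfold wt; revert a v; decide

theorem wt_sq_sum (a v : ZMod 3) : wt a v ^ 2 + wt a (v + 1) ^ 2 + wt a (v + 2) ^ 2 = 6 := by
  unfold wt; revert a v; decide

theorem sum_wt_mul {i j : Fin n} (hij : i ≠ j) (a : ZMod 3) : ∑ x : V n, wt a (x i) * wt a (x j) = 0 := by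
  have h1 : ∑ x : V n, wt a (x i) * wt a (x j) = ∑ x : V n, wt a (x i + 1) * wt a (x j) := by
    rw [← sum_sh i (fun x => wt a (x i) * wt a (x j))]
    apply sum_congr rfl
    intro x _
    rw [sh_self, sh_ne hij.symm]
  have h2 : ∑ x : V n, wt a (x i) * wt a (x j) = ∑ x : V n, wt a (x i + 2) * wt a (x j) := by
    rw [h1, ← sum_sh i (fun x => wt a (x i + 1) * wt a (x j))]
    apply sum_congr rfl
    intro x _
    rw [sh_self, sh_ne hij.symm, add_assoc]
    norm_num
  have h3 : ∑ x : V n, wt a (x i) * wt a (x j) + ∑ x : V n, wt a (x i + 1) * wt a (x j)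
      + ∑ x : V n, wt a (x i + 2) * wt a (x j) = 0 := by
    rw [← sum_add_distrib, ← sum_add_distrib]
    apply sum_eq_zero
    intro x _
    rw [← add_mul, ← add_mul, wt_sum, zero_mul]
  linarith

theorem sum_wt_sq (i : Fin n) (a : ZMod 3) : ∑ x : V n, wt a (x i) * wt a (x i) = 2 * 3 ^ n := by
  have h1 : ∑ x : V n, wt a (x i) * wt a (x i) = ∑ x : V n, wt a (x i + 1) * wt a (x i + 1) := by
    rw [← sum_sh i (fun x => wt a (x i) * wt a (x i))]
    apply sum_congr rfl
    intro x _
    rw [sh_self]
  have h2 : ∑ x : V n, wt a (x i) * wt a (x i) = ∑ x : V n, wt a (x i + 2) * wt a (x i + 2) := by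
    rw [h1, ← sum_sh i (fun x => wt a (x i + 1) * wt a (x i + 1))]
    apply sum_congr rfl
    intro x _
    rw [sh_self, add_assoc]
    norm_num
  have h3 : ∑ x : V n, wt a (x i) * wt a (x i) + ∑ x : V n, wt a (x i + 1) * wt a (x i + 1)
      + ∑ x : V n, wt a (x i + 2) * wt a (x i + 2) = 6 * 3 ^ n := by
    rw [← sum_add_distrib, ← sum_add_distrib]
    have : ∀ x : V n, wt a (x i) * wt a (x i) + wt a (x i + 1) * wt a (x i + 1)
        + wt a (x i + 2) * wt a (x i + 2) = 6 := by
      intro x
      have := wt_sq_sum a (x i)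
      linarith
    simp only [this]
    rw [sum_const, card_univ, card_V, nsmul_eq_mul]
    push_cast
    ring
  linarith

/-- number of coordinates in `I` with letter `a`. -/
def cnt (I : Finset (Fin n)) (a : ZMod 3) (x : V n) : ℕ := (I.filter (fun i => x i = a)).card

theorem sum_wt_eq (I : Finset (Fin n)) (a : ZMod 3) (x : V n) :
    ∑ i ∈ I, wt a (x i) = 3 * cnt I a x - I.card := by
  unfold wt cnt
  rw [card_filter]
  push_cast
  rw [mul_sum, card_eq_sum_ones, Nat.cast_sum, ← sum_sub_distrib]
  apply sum_congr rfl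
  intro i _
  split_ifs <;> norm_num

theorem second_moment (I : Finset (Fin n)) (a : ZMod 3) :
    ∑ x : V n, (3 * (cnt I a x : ℤ) - (I.card : ℤ)) ^ 2 = 2 * (I.card : ℤ) * 3 ^ n := by
  simp only [← sum_wt_eq]
  have : ∀ x : V n, (∑ i ∈ I, wt a (x i)) ^ 2 = ∑ i ∈ I, ∑ j ∈ I, wt a (x i) * wt a (x j) := by
    intro x
    rw [sq, sum_mul_sum]
  simp only [this]
  rw [sum_comm]
  have h2 : ∀ i ∈ I, ∑ x : V n, ∑ j ∈ I, wt a (x i) * wt a (x j) = 2 * 3 ^ n := by
    intro i hi
    rw [sum_comm, ← add_sum_erase I _ hi, sum_wt_sq]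
    have : ∑ j ∈ I.erase i, ∑ x : V n, wt a (x i) * wt a (x j) = 0 := by
      apply sum_eq_zero
      intro j hj
      exact sum_wt_mul (mem_erase.mp hj).1.symm a
    rw [this, add_zero]
  rw [sum_congr rfl h2, sum_const, nsmul_eq_mul]
  ring

/-- Chebyshev -/
theorem chebyshev (I : Finset (Fin n)) (a : ZMod 3) {t : ℝ} (ht : 0 < t) :
    (((univ : Finset (V n)).filter (fun x => (I.card : ℝ) + t < 3 * cnt I a x)).card : ℝ) * t ^ 2
      ≤ 2 * n * 3 ^ n := by
  have h := second_moment I a
  have h' : ∑ x : V n, (3 * (cnt I a x : ℝ) - (I.card : ℝ)) ^ 2 = 2 * (I.card : ℝ) * 3 ^ n := by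
    exact_mod_cast h
  have hI : (I.card : ℝ) ≤ n := by
    have := card_le_univ I
    rw [Fintype.card_fin] at this
    exact_mod_cast this
  calc (((univ : Finset (V n)).filter (fun x => (I.card : ℝ) + t < 3 * cnt I a x)).card : ℝ) * t ^ 2
      = ∑ _x ∈ (univ : Finset (V n)).filter (fun x => (I.card : ℝ) + t < 3 * cnt I a x), t ^ 2 := by
        rw [sum_const, nsmul_eq_mul]
    _ ≤ ∑ x ∈ (univ : Finset (V n)).filter (fun x => (I.card : ℝ) + t < 3 * cnt I a x),
          (3 * (cnt I a x : ℝ) - I.card) ^ 2 := by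
        apply sum_le_sum
        intro x hx
        have := (mem_filter.mp hx).2
        apply pow_le_pow_left₀ ht.le
        linarith
    _ ≤ ∑ x : V n, (3 * (cnt I a x : ℝ) - I.card) ^ 2 := by
        apply sum_le_sum_of_subset_of_nonneg (filter_subset _ _)
        intro x _ _
        positivity
    _ = 2 * I.card * 3 ^ n := h'
    _ ≤ 2 * n * 3 ^ n := by
        apply mul_le_mul_of_nonneg_right _ (by positivity)
        linarith

/-! ### the construction -/

variable {G : Type*} [AddCommGroup G] [Fintype G] [DecidableEq G]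

/-- the labelling -/
def psi (g : Fin n → ZMod 3 → G) (x : V n) : G := ∑ i, g i (x i)

omit [Fintype G] [DecidableEq G] in
theorem psi_update (g : Fin n → ZMod 3 → G) (x : V n) (i : Fin n) (b : ZMod 3) :
    psi g (Function.update x i b) = psi g x + (g i b - g i (x i)) := by
  unfold psi
  rw [← add_sum_erase univ (fun j => g j (Function.update x i b j)) (mem_univ i),
    ← add_sum_erase univ (fun j => g j (x j)) (mem_univ i), Function.update_self]
  have : ∑ j ∈ univ.erase i, g j (Function.update x i b j) = ∑ j ∈ univ.erase i, g j (x j) := by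
    apply sum_congr rfl
    intro j hj
    rw [Function.update_of_ne (mem_erase.mp hj).1]
  rw [this]
  abel

/-- the set with shift `c` -/
def US (g : Fin n → ZMod 3 → G) (T : Finset G) (c : G) : Finset (V n) :=
  univ.filter (fun x => psi g x - c ∈ T)

theorem exists_shift (g : Fin n → ZMod 3 → G) (T : Finset G) :
    ∃ c, T.card * 3 ^ n ≤ Fintype.card G * (US g T c).card := by
  by_contra hcon
  push Not at hcon
  have h1 : ∑ c : G, Fintype.card G * (US g T c).card < ∑ _c : G, T.card * 3 ^ n := by
    apply sum_lt_sum_of_nonempty ⟨0, mem_univ _⟩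
    intro c _
    exact hcon c
  rw [sum_const, card_univ, smul_eq_mul, ← mul_sum] at h1
  have h2 : ∑ c : G, (US g T c).card = T.card * 3 ^ n := by
    unfold US
    simp only [card_filter]
    rw [sum_comm]
    have : ∀ x : V n, ∑ c : G, (if psi g x - c ∈ T then 1 else 0) = T.card := by
      intro x
      rw [Fintype.sum_equiv (Equiv.subLeft (psi g x)) (fun c => if psi g x - c ∈ T then 1 else 0)
        (fun c => if c ∈ T then 1 else 0) (fun c => rfl)]
      simp
    rw [sum_congr rfl (fun x _ => this x), sum_const, card_univ, card_V, smul_eq_mul, mul_comm]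
  rw [h2] at h1
  exact lt_irrefl _ h1

/-- the number of good changes for a letter table `h`, letter `a`, state `s`. -/
def good (T : Finset G) (h : ZMod 3 → G) (s : G) (a : ZMod 3) : ℕ :=
  ((univ : Finset (ZMod 3)).filter (fun b => b ≠ a ∧ s + (h b - h a) ∈ T)).card

omit [Fintype G] in
theorem degree_US (g : Fin n → ZMod 3 → G) (T : Finset G) (c : G) (x : V n) :
    ((US g T c).filter (fun y => hammingDist x y = 1)).card
      = ∑ i, good T (g i) (psi g x - c) (x i) := by
  rw [degree_eq, card_filter, Fintype.sum_prod_type]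
  apply sum_congr rfl
  intro i _
  unfold good
  rw [card_filter]
  apply sum_congr rfl
  intro b _
  have : Function.update x i b ∈ US g T c ↔ psi g x - c + (g i b - g i (x i)) ∈ T := by
    unfold US
    simp only [mem_filter, mem_univ, true_and]
    rw [psi_update, show psi g x + (g i b - g i (x i)) - c = psi g x - c + (g i b - g i (x i)) by abel]
  simp only [this]

/-! ### types of coordinates -/

/-- coordinates of type `t` -/
def cls (n m : ℕ) (t : ℕ) : Finset (Fin n) := univ.filter (fun i => (i : ℕ) % m = t)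

theorem card_cls (n m t : ℕ) : (cls n m t).card ≤ n / m + 1 := by
  have : (cls n m t).card ≤ (range (n / m + 1)).card := by
    apply card_le_card_of_injOn (fun i : Fin n => (i : ℕ) / m)
    · intro i _
      simp only [coe_range, Set.mem_Iio]
      exact Nat.lt_succ_of_le (Nat.div_le_div_right i.2.le)
    · intro i hi j hj h
      have h1 : (i : ℕ) % m = t := by simpa [cls] using hi
      have h2 : (j : ℕ) % m = t := by simpa [cls] using hj
      have h3 : (i : ℕ) / m = (j : ℕ) / m := h
      apply Fin.ext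
      rw [← Nat.div_add_mod (i : ℕ) m, ← Nat.div_add_mod (j : ℕ) m, h1, h2, h3]
  simpa using this

omit [Fintype G] in
/-- the degree sum sorted by type and letter -/
theorem sum_good_eq {m : ℕ} (hm : 0 < m) (T : Finset G) (g : Fin m → ZMod 3 → G) (s : G) (x : V n) :
    ∑ i : Fin n, good T (g ⟨(i : ℕ) % m, Nat.mod_lt _ hm⟩) s (x i)
      = ∑ t : Fin m, ∑ a : ZMod 3, cnt (cls n m t) a x * good T (g t) s a := by
  have h1 : ∀ i : Fin n, good T (g ⟨(i : ℕ) % m, Nat.mod_lt _ hm⟩) s (x i)
      = ∑ t : Fin m, ∑ a : ZMod 3, if (i : ℕ) % m = t ∧ x i = a then good T (g t) s a else 0 := by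
    intro i
    rw [sum_eq_single (⟨(i : ℕ) % m, Nat.mod_lt _ hm⟩ : Fin m), sum_eq_single (x i)]
    · simp
    · intro a _ ha
      rw [if_neg (fun h => ha h.2.symm)]
    · intro h; exact absurd (mem_univ _) h
    · intro t _ ht
      apply sum_eq_zero
      intro a _
      rw [if_neg]
      rintro ⟨h, _⟩
      exact ht (Fin.ext h.symm)
    · intro h; exact absurd (mem_univ _) h
  rw [sum_congr rfl (fun i _ => h1 i), sum_comm]
  apply sum_congr rfl
  intro t _
  rw [sum_comm]
  apply sum_congr rfl
  intro a _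
  rw [← sum_filter, sum_const, smul_eq_mul]
  congr 1
  unfold cnt cls
  rw [filter_filter]

theorem lower_bound {m : ℕ} (hm : 0 < m) (T : Finset G) (g : Fin m → ZMod 3 → G) {D : ℕ}
    (hD : ∀ s ∈ T, ∑ t : Fin m, ∑ a : ZMod 3, good T (g t) s a ≤ D) {δ : ℝ}
    (hδ : (D : ℝ) / (3 * m) < δ) {ε : ℝ} (hε : 0 < ε) :
    ∃ n0 : ℕ, ∀ n : ℕ, n0 ≤ n → ∀ d : ℕ, δ * n - 1 ≤ d →
      ((T.card : ℝ) / Fintype.card G - ε) * 3 ^ n ≤ f n d := by
  set γ : ℝ := δ - (D : ℝ) / (3 * m) with hγ
  have hγ0 : 0 < γ := by rw [hγ]; linarith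
  have hD0 : (0 : ℝ) ≤ D := Nat.cast_nonneg _
  have hm0 : (0 : ℝ) < m := by exact_mod_cast hm
  set γ' : ℝ := γ / (D + 1) with hγ'
  have hγ'0 : 0 < γ' := by rw [hγ']; positivity
  obtain ⟨n1, hn1⟩ := exists_nat_gt ((D / 3 + 1) / (2 * γ / 3))
  obtain ⟨n2, hn2⟩ := exists_nat_gt (6 * m / (γ' ^ 2 * ε))
  refine ⟨max (max n1 n2) 1, fun n hn d hd => ?_⟩
  have hnn1 : (n1 : ℝ) ≤ n := by exact_mod_cast le_trans (le_trans (le_max_left _ _) (le_max_left _ _)) hn
  have hnn2 : (n2 : ℝ) ≤ n := by exact_mod_cast le_trans (le_trans (le_max_right _ _) (le_max_left _ _)) hn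
  have hn0 : (0 : ℝ) < n := by
    have : 1 ≤ n := le_trans (le_max_right _ _) hn
    exact_mod_cast this
  have hlarge1 : (D : ℝ) / 3 + 1 ≤ 2 * γ / 3 * n := by
    have := hn1.le.trans hnn1
    rw [div_le_iff₀ (by positivity)] at this
    linarith
  have hlarge2 : 6 * m ≤ γ' ^ 2 * ε * n := by
    have := hn2.le.trans hnn2
    rw [div_le_iff₀ (by positivity)] at this
    linarith
  set G' : Fin n → ZMod 3 → G := fun i => g ⟨(i : ℕ) % m, Nat.mod_lt _ hm⟩ with hG'
  obtain ⟨c, hc⟩ := exists_shift G' T
  set t : ℝ := γ' * n with ht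
  have ht0 : 0 < t := by rw [ht]; positivity
  -- bad points
  set B : Finset (V n) := univ.biUnion (fun p : Fin m × ZMod 3 =>
    (univ : Finset (V n)).filter (fun x => ((cls n m p.1).card : ℝ) + t < 3 * cnt (cls n m p.1) p.2 x)) with hB
  have hBle : B.card ≤ ∑ p : Fin m × ZMod 3,
      ((univ : Finset (V n)).filter (fun x => ((cls n m p.1).card : ℝ) + t
        < 3 * cnt (cls n m p.1) p.2 x)).card := by
    rw [hB]; exact card_biUnion_le
  have hBcard : (B.card : ℝ) ≤ ε * 3 ^ n := by
    have h1 : (B.card : ℝ) * t ^ 2 ≤ 3 * m * (2 * n * 3 ^ n) := by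
      calc (B.card : ℝ) * t ^ 2 ≤ ((∑ p : Fin m × ZMod 3,
            ((univ : Finset (V n)).filter (fun x => ((cls n m p.1).card : ℝ) + t
              < 3 * cnt (cls n m p.1) p.2 x)).card : ℕ) : ℝ) * t ^ 2 :=
            mul_le_mul_of_nonneg_right (Nat.cast_le.mpr hBle) (by positivity)
        _ = ∑ p : Fin m × ZMod 3, (((univ : Finset (V n)).filter (fun x => ((cls n m p.1).card : ℝ) + t
              < 3 * cnt (cls n m p.1) p.2 x)).card : ℝ) * t ^ 2 := by
            rw [Nat.cast_sum, sum_mul]
        _ ≤ ∑ _p : Fin m × ZMod 3, (2 * n * 3 ^ n : ℝ) := sum_le_sum (fun p _ => chebyshev _ _ ht0)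
        _ = 3 * m * (2 * n * 3 ^ n) := by
            rw [sum_const, card_univ, Fintype.card_prod, Fintype.card_fin, ZMod.card, nsmul_eq_mul]
            push_cast
            ring
    have h2 : 3 * m * (2 * n * 3 ^ n) ≤ (ε * 3 ^ n) * t ^ 2 := by
      have e : (ε * 3 ^ n) * t ^ 2 = (γ' ^ 2 * ε * n) * (n * 3 ^ n) := by rw [ht]; ring
      rw [e]
      calc 3 * (m : ℝ) * (2 * n * 3 ^ n) = (6 * m) * (n * 3 ^ n) := by ring
        _ ≤ _ := mul_le_mul_of_nonneg_right hlarge2 (by positivity)
    exact le_of_mul_le_mul_right (h1.trans h2) (by positivity)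
  -- the set
  have hind : IndDeg (US G' T c \ B) d := by
    intro x hx
    rw [mem_sdiff] at hx
    have hxT : psi G' x - c ∈ T := by
      have := hx.1
      unfold US at this
      simpa using this
    have h1 : ((US G' T c \ B).filter (fun y => hammingDist x y = 1)).card
        ≤ ((US G' T c).filter (fun y => hammingDist x y = 1)).card :=
      card_le_card (filter_subset_filter _ sdiff_subset)
    rw [degree_US, hG', sum_good_eq hm] at h1
    have hcnt : ∀ (s : Fin m) (a : ZMod 3), 3 * (cnt (cls n m s) a x : ℝ) ≤ n / m + 1 + t := by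
      intro s a
      have hnot : ¬ (((cls n m s).card : ℝ) + t < 3 * cnt (cls n m s) a x) := by
        intro hlt
        apply hx.2
        rw [hB]
        simp only [mem_biUnion, mem_univ, true_and, mem_filter]
        exact ⟨(s, a), hlt⟩
      have hcc : ((cls n m s).card : ℝ) ≤ n / m + 1 := by
        have h := card_cls n m s
        have h' : ((cls n m s).card : ℝ) ≤ ((n / m : ℕ) : ℝ) + 1 := by exact_mod_cast h
        have h'' : ((n / m : ℕ) : ℝ) ≤ (n : ℝ) / m := Nat.cast_div_le
        linarith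
      push Not at hnot
      linarith
    have hsum : (3 : ℝ) * (∑ s : Fin m, ∑ a : ZMod 3, cnt (cls n m s) a x *
        good T (g s) (psi G' x - c) a : ℕ) ≤ (n / m + 1 + t) * D := by
      calc (3 : ℝ) * (∑ s : Fin m, ∑ a : ZMod 3, cnt (cls n m s) a x *
            good T (g s) (psi G' x - c) a : ℕ)
          = ∑ s : Fin m, ∑ a : ZMod 3, (3 * (cnt (cls n m s) a x : ℝ)) *
            (good T (g s) (psi G' x - c) a : ℝ) := by
            push_cast
            rw [mul_sum]
            apply sum_congr rfl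
            intro s _
            rw [mul_sum]
            apply sum_congr rfl
            intro a _
            ring
        _ ≤ ∑ s : Fin m, ∑ a : ZMod 3, (n / m + 1 + t) *
            (good T (g s) (psi G' x - c) a : ℝ) := by
            apply sum_le_sum
            intro s _
            apply sum_le_sum
            intro a _
            exact mul_le_mul_of_nonneg_right (hcnt s a) (Nat.cast_nonneg _)
        _ = (n / m + 1 + t) * (∑ s : Fin m, ∑ a : ZMod 3, good T (g s) (psi G' x - c) a : ℕ) := by
            push_cast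
            rw [mul_sum]
            apply sum_congr rfl
            intro s _
            rw [mul_sum]
        _ ≤ (n / m + 1 + t) * D := by
            apply mul_le_mul_of_nonneg_left _ (by positivity)
            exact_mod_cast hD _ hxT
    have hfin : ((∑ s : Fin m, ∑ a : ZMod 3, cnt (cls n m s) a x *
        good T (g s) (psi G' x - c) a : ℕ) : ℝ) ≤ d := by
      have e1 : (n / m + 1 + t) * (D : ℝ) / 3 = (D : ℝ) / (3 * m) * n + D / 3 + t * D / 3 := by
        field_simp
      have e2 : t * D ≤ γ * n := by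
        rw [ht, hγ']
        have : γ / (D + 1) * n * D = γ * n * (D / (D + 1)) := by field_simp
        rw [this]
        have h3 : (D : ℝ) / (D + 1) ≤ 1 := by rw [div_le_one (by positivity)]; linarith
        calc γ * n * (D / (D + 1)) ≤ γ * n * 1 := mul_le_mul_of_nonneg_left h3 (by positivity)
          _ = γ * n := by ring
      have e3 : (D : ℝ) / (3 * m) = δ - γ := by rw [hγ]; ring
      rw [e3] at e1
      have : (δ - γ) * n = δ * n - γ * n := by ring
      linarith
    have : (((US G' T c \ B).filter (fun y => hammingDist x y = 1)).card : ℝ) ≤ d := by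
      refine le_trans ?_ hfin
      exact_mod_cast h1
    exact_mod_cast this
  have hle := le_f hind
  have hcard : (US G' T c).card ≤ (US G' T c \ B).card + B.card := by
    exact card_le_card_sdiff_add_card
  have hG0 : (0 : ℝ) < Fintype.card G := by
    have : 0 < Fintype.card G := Fintype.card_pos_iff.mpr ⟨0⟩
    exact_mod_cast this
  have hc' : (T.card : ℝ) / Fintype.card G * 3 ^ n ≤ (US G' T c).card := by
    rw [div_mul_eq_mul_div, div_le_iff₀ hG0, mul_comm ((US G' T c).card : ℝ)]
    exact_mod_cast hc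
  have h4 : ((US G' T c).card : ℝ) ≤ (US G' T c \ B).card + B.card := by exact_mod_cast hcard
  have h5 : ((US G' T c \ B).card : ℝ) ≤ f n d := by exact_mod_cast hle
  calc ((T.card : ℝ) / Fintype.card G - ε) * 3 ^ n
      = (T.card : ℝ) / Fintype.card G * 3 ^ n - ε * 3 ^ n := by ring
    _ ≤ f n d := by linarith

end H82Ham
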